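import Pool.Agent.H30.T1M.S

/-!
# T1M, row TWI: the factor of `v` with constant reduction
-/

set_option autoImplicit false

namespace Pool.T1M

open Polynomial Matrix Pool.HYP Pool.TOW Pool.AVS Pool.T1 IsDedekindDomain

namespace H15

theorem reflect_pow {R : Type} [CommRing R] (w : R[X]) (r : ℕ) (hr : w.natDegree ≤ r) (m : ℕ) :
    reflect (m * r) (w ^ m) = (reflect r w) ^ m := by
  induction m with
  | zero =>
    rw [Nat.zero_mul, pow_zero, pow_zero]
    ext i
    rw [coeff_reflect]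
    rcases Nat.eq_zero_or_pos i with h | h
    · subst h
      simp
    · rw [revAt_eq_self_of_lt h]
  | succ k ih =>
    rw [pow_succ, pow_succ, Nat.succ_mul, reflect_mul _ _ ?_ hr, ih]
    exact natDegree_pow_le_of_le k hr

end H15

open H15 in
/-- **TWI.** -/
theorem twi (hNMU : NMUStmt) (hNRX : NRXStmt) (hMPA : MPAStmt) : TWIStmt := by
  intro L _ O π H f V w d j hf hodd hV hd hdvd
  obtain ⟨b₀, hb₀, hrd⟩ := hV
  obtain ⟨N, hN⟩ : ∃ N : ℕ, N = f.natDegree := ⟨_, rfl⟩
  obtain ⟨t, ht⟩ : ∃ t : ℕ, t = V.natDegree := ⟨_, rfl⟩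
  have hinj : Function.Injective (algebraMap O L) := Subtype.val_injective
  rw [← hN] at hdvd hodd
  rw [← ht]
  -- the constant coefficient
  have hb0 : IsLocalRing.residue O (V.coeff 0) = b₀ := by
    have h1 := congrArg (fun q => coeff q 0) hrd
    simpa only [coeff_map, coeff_C_zero] using h1
  have hbu : IsUnit (V.coeff 0) := by
    by_contra hc
    apply hb₀
    rw [← hb0, IsLocalRing.residue_eq_zero_iff, IsLocalRing.mem_maximalIdeal, mem_nonunits_iff]
    exact hc
  have hb : V.coeff 0 ≠ 0 := hbu.ne_zero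
  have hV0 : V ≠ 0 := by
    rintro rfl
    exact hb (coeff_zero 0)
  obtain ⟨bi, hbi⟩ := hbu.exists_right_inv
  have hbiu : IsUnit bi := IsUnit.of_mul_eq_one (V.coeff 0) (by rw [mul_comm]; exact hbi)
  -- the reversed polynomial
  obtain ⟨V', hV'⟩ : ∃ V' : O[X], V' = C bi * reflect t V := ⟨_, rfl⟩
  have hV'c : ∀ i, i ≤ t → V'.coeff i = bi * V.coeff (t - i) := by
    intro i hi
    rw [hV', coeff_C_mul, coeff_reflect, revAt_le hi]
  have hV'c2 : ∀ i, t < i → V'.coeff i = 0 := by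
    intro i hi
    rw [hV', coeff_C_mul, coeff_reflect, revAt_eq_self_of_lt hi,
      coeff_eq_zero_of_natDegree_lt (by omega), mul_zero]
  have hV't : V'.coeff t = 1 := by
    rw [hV'c t le_rfl, Nat.sub_self, mul_comm, hbi]
  have hV'd : V'.natDegree = t := by
    refine le_antisymm (natDegree_le_iff_coeff_eq_zero.2 fun i hi => hV'c2 i hi) ?_
    exact le_natDegree_of_ne_zero (by rw [hV't]; exact one_ne_zero)
  have hV'm : V'.Monic := by
    rw [Monic, leadingCoeff, hV'd, hV't]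
  have hV'0 : V'.coeff 0 = bi * V.leadingCoeff := by
    rw [hV'c 0 (Nat.zero_le _), Nat.sub_zero, ht]
    rfl
  have hV'r : rd O V' = (X - C (0 : IsLocalRing.ResidueField O)) ^ t := by
    rw [C_0, sub_zero]
    ext i
    rw [rd, coeff_map, coeff_X_pow]
    rcases lt_trichotomy i t with h | h | h
    · rw [hV'c i h.le, if_neg h.ne, map_mul]
      have h1 := congrArg (fun q => coeff q (t - i)) hrd
      simp only [coeff_map] at h1
      rw [h1, coeff_C_ne_zero (by omega), mul_zero]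
    · rw [h, hV't, map_one, if_pos rfl]
    · rw [hV'c2 i h, map_zero, if_neg h.ne']
  -- the divisibility
  obtain ⟨q, hq⟩ := hdvd
  obtain ⟨r, hr1, hr2⟩ : ∃ r : ℕ, w.natDegree ≤ r ∧ N ≤ r := ⟨max w.natDegree N,
    le_max_left _ _, le_max_right _ _⟩
  obtain ⟨m, hm⟩ : ∃ m : ℕ, m = 2 ^ j := ⟨_, rfl⟩
  have hm1 : 1 ≤ m := by
    rw [hm]
    exact Nat.one_le_two_pow
  rw [← hm] at hq ⊢
  have hNM : N ≤ m * r := hr2.trans (Nat.le_mul_of_pos_left r (by omega))
  have hVL0 : oL O V ≠ 0 := (Polynomial.map_ne_zero_iff hinj).2 hV0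
  have hVLd : (oL O V).natDegree = t := by
    rw [ht]
    exact natDegree_map_eq_of_injective hinj V
  have hfLd : (oL O f).natDegree = N := by
    rw [hN]
    exact natDegree_map_eq_of_injective hinj f
  have hdeg : (oL O V * q).natDegree ≤ m * r := by
    rw [← hq]
    refine (natDegree_sub_le _ _).trans (max_le (natDegree_pow_le_of_le m hr1) ?_)
    exact (natDegree_C_mul_le _ _).trans (by rw [hfLd]; exact hNM)
  have hqd : oL O V * q = 0 ∨ q.natDegree + t ≤ m * r := by
    by_cases h0 : q = 0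
    · left
      rw [h0, mul_zero]
    · right
      rw [natDegree_mul hVL0 h0, hVLd] at hdeg
      omega
  -- the reversed `f`
  obtain ⟨f', hf'⟩ : ∃ f' : O[X], f' = reflect N f := ⟨_, rfl⟩
  have hf'0 : f'.coeff 0 = 1 := by
    rw [hf', coeff_reflect, revAt_le (Nat.zero_le _), Nat.sub_zero, hN]
    exact hf
  have hoLr : ∀ (k : ℕ) (p : O[X]), oL O (reflect k p) = reflect k (oL O p) := fun k p =>
    (reflect_map _ _ _).symm
  have hkey : oL O V' ∣ (reflect r w) ^ m - C (d ^ N) * X ^ (m * r - N) * oL O f' := by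
    have h1 : reflect (m * r) (w ^ m - C (d ^ N) * oL O f) =
        (reflect r w) ^ m - C (d ^ N) * X ^ (m * r - N) * oL O f' := by
      rw [reflect_sub, reflect_pow w r hr1, reflect_C_mul, hf', hoLr]
      congr 1
      rw [mul_assoc]
      congr 1
      have h2 : m * r = N + (m * r - N) := by omega
      have h3 : reflect (N + (m * r - N)) (oL O f * 1) =
          reflect N (oL O f) * reflect (m * r - N) 1 :=
        reflect_mul _ _ (by rw [hfLd]) (by rw [natDegree_one]; exact Nat.zero_le _)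
      rw [mul_one, ← h2] at h3
      rw [h3, reflect_one]
      ring
    rw [← h1, hq, hV', oL, Polynomial.map_mul, Polynomial.map_C]
    have hu : IsUnit (C (algebraMap O L bi) : L[X]) := (hbiu.map (algebraMap O L)).map C
    rw [hu.mul_left_dvd]
    show oL O (reflect t V) ∣ _
    rw [hoLr]
    rcases hqd with h0 | h0
    · rw [h0, reflect_zero]
      exact dvd_zero _
    · have h2 : m * r = t + (m * r - t) := by omega
      rw [h2, reflect_mul _ _ (by rw [hVLd]) (by omega)]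
      exact Dvd.intro _ rfl
  -- norms
  obtain ⟨A, hA⟩ : ∃ A : L[X] →+* AdjoinRoot (oL O V'), A = AdjoinRoot.mk (oL O V') := ⟨_, rfl⟩
  have hVLm : (oL O V').Monic := hV'm.map _
  have hNC : ∀ c : L, Algebra.norm L (A (C c)) = c ^ t := by
    intro c
    have h3 : A (C c) = algebraMap L (AdjoinRoot (oL O V')) c := by
      rw [hA]
      rfl
    rw [h3, Algebra.norm_algebraMap]
    congr 1
    rw [(AdjoinRoot.powerBasis' hVLm).finrank, AdjoinRoot.powerBasis'_dim]
    rw [oL, hV'm.natDegree_map, hV'd]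
  have hNX : Algebra.norm L (A X) = (-1) ^ t * ((bi : L) * ((V.leadingCoeff : O) : L)) := by
    have h1 := hNMU.2.2.1 L 0 (oL O V') hVLm
    have h2 : AdjoinRoot.mk (oL O V') (C 0 - X) = A (C (-1)) * A X := by
      rw [hA, ← map_mul]
      congr 1
      rw [C_0, C_neg, C_1]
      ring
    rw [h2, map_mul, hNC] at h1
    have h3 : (oL O V').eval 0 = (bi : L) * ((V.leadingCoeff : O) : L) := by
      rw [← coeff_zero_eq_eval_zero, oL, coeff_map, hV'0]
      rfl
    rw [h3] at h1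
    have h4 : ((-1 : L) ^ t) * (-1) ^ t = 1 := by
      rw [← mul_pow, neg_one_mul, neg_neg, one_pow]
    rw [← h1, ← mul_assoc, h4, one_mul]
  obtain ⟨ν, hν1, hν2⟩ := hNRX L O π H V' f' 0 t hV'm hV'r
  have hres : IsLocalRing.residue O ν = IsLocalRing.residue O 1 := by
    rw [hν2, ← coeff_zero_eq_eval_zero, rd, coeff_map, hf'0, map_one, one_pow]
  obtain ⟨z, hzu, hz⟩ := hMPA.1 L O π H j ν 1 isUnit_one hres
  have hz0 : (z : L) ≠ 0 := by
    intro h
    exact hzu.ne_zero (Subtype.ext h)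
  rw [← hm] at hz
  have hnf : Algebra.norm L (A (oL O f')) = (z : L) ^ m := by
    rw [hA, ← hν1, hz]
    show ((1 : O) : L) * _ = _
    rw [OneMemClass.coe_one, one_mul]
  obtain ⟨D, hD⟩ : ∃ D : L, D = d ^ N := ⟨_, rfl⟩
  have hkeyA : A (reflect r w) ^ m = A (C D) * A X ^ (m * r - N) * A (oL O f') := by
    have h1 : A ((reflect r w) ^ m) = A (C D * X ^ (m * r - N) * oL O f') := by
      rw [hA, hD]
      exact AdjoinRoot.mk_eq_mk.2 hkey
    rw [map_pow, map_mul, map_mul, map_pow] at h1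
    exact h1
  have hn := congrArg (Algebra.norm L) hkeyA
  rw [map_pow, map_mul, map_mul, map_pow, hNC, hnf, hD] at hn
  obtain ⟨y, hy⟩ : ∃ y : L, y = Algebra.norm L (A (reflect r w)) := ⟨_, rfl⟩
  obtain ⟨n, hn'⟩ : ∃ n : L, n = Algebra.norm L (A X) := ⟨_, rfl⟩
  obtain ⟨b, hbL⟩ : ∃ b : L, b = ((V.coeff 0 : O) : L) := ⟨_, rfl⟩
  obtain ⟨l, hl⟩ : ∃ l : L, l = ((V.leadingCoeff : O) : L) := ⟨_, rfl⟩
  rw [← hy, ← hn'] at hn
  rw [← hn', ← hl] at hNX
  rw [← hbL, ← hl]
  have hb1 : b ≠ 0 := by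
    rw [hbL]
    intro h
    exact hb (Subtype.ext h)
  have hl1 : l ≠ 0 := by
    rw [hl]
    intro h
    exact (leadingCoeff_ne_zero.2 hV0) (Subtype.ext h)
  have hbbi : b * (bi : L) = 1 := by
    rw [hbL]
    exact congrArg Subtype.val hbi
  have hbi1 : (bi : L) ≠ 0 := right_ne_zero_of_mul_eq_one hbbi
  have hn0 : n ≠ 0 := by
    rw [hNX]
    exact mul_ne_zero (pow_ne_zero _ (neg_ne_zero.2 one_ne_zero)) (mul_ne_zero hbi1 hl1)
  -- `((-d)^t b / l)^N` is an `m`-th power
  have hx : (b * (-d) ^ t / l) ^ N = (y / (n ^ r * z)) ^ m := by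
    have h1 : b * (-d) ^ t / l = d ^ t / n := by
      have h4 : ((-1 : L) ^ t) * (-1) ^ t = 1 := by
        rw [← mul_pow, neg_one_mul, neg_neg, one_pow]
      rw [div_eq_div_iff hl1 hn0, hNX, neg_pow d t]
      linear_combination (d ^ t * l) * (b * (bi : L)) * h4 + d ^ t * l * hbbi
    rw [h1, div_pow, div_pow, div_eq_div_iff (pow_ne_zero _ hn0)
      (pow_ne_zero _ (mul_ne_zero (pow_ne_zero _ hn0) hz0)), hn, mul_pow, ← pow_mul, ← pow_mul]
    have h2 : n ^ (m * r) = n ^ (m * r - N) * n ^ N := by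
      rw [← pow_add]
      congr 1
      omega
    rw [mul_comm r m, h2, mul_comm t N, pow_mul]
    ring
  have hx0 : b * (-d) ^ t / l ≠ 0 :=
    div_ne_zero (mul_ne_zero hb1 (pow_ne_zero _ (neg_ne_zero.2 hd))) hl1
  rw [hm] at hx
  obtain ⟨e, he0, he⟩ := hMPA.2 L j N _ _ hodd hx0 hx
  refine ⟨e, he0, ?_⟩
  rw [hm, ← he]
  field_simp

end Pool.T1M
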